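import Pool.Agent.H705.TR.Fin

/-!
# The gcd recursion for prime triples in the random model

Let `c = a (n - 1) + n` be the level before step `n`; then `gcd (a (n - 1), n + b n) = gcd (c + b n, n + b n)`, and at the zero `f`
the level is `c = f + 1`. In the model every number `c` is replaced by a random integer `X c`, uniformly distributed on
`0, …, M c - 1`, where `M c` is divisible by all the primes `p` with `p ^ 2 ≤ c + 6` (so that the residues of `X c` modulo these
primes are uniform and independent), all the `X c` being independent. The number `c + β` is prime in the model if `X c + β` has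
no prime factor `p` with `p ^ 2 ≤ c + β`, and the gcd with a smaller number is then `1`.
-/

set_option autoImplicit false

namespace Pool.Agent.Results.MP_3f8e47_nt.RandomModel

open MeasureTheory ProbabilityTheory Finset Filter Topology Pool.Agent.H705.TR

/-- (1) `PrimeIn m m` means that `m` is prime, and for `x c = c` the recursion `aseq` is the recursion of the problem up to its
zero, so that `F id N = f(N)`. (2) `F x N` is always the least zero. (3) For all `M` the random model exists, and in it almost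
surely: (a) for all large `N`, with `f = F N`, the numbers `f + 1`, `f + 3`, `f + 7` are prime in the model and
`N - f ≤ √N (log N) ^ 11`; (b) for all `0 < t ≤ 1` simultaneously the set of the `N` with `N - f(N) ≤ N ^ (t / 2)` has the natural
density `t ^ 3`. -/
theorem result :
    ((∀ m : ℕ, 2 ≤ m → (PrimeIn m m ↔ m.Prime)) ∧
      ∀ N : ℕ, 6 ≤ N → ∀ a : ℕ → ℤ, a 1 = (N : ℤ) - 6 →
        (∀ n : ℕ, 2 ≤ n → a n = a (n - 1) - (Int.gcd (a (n - 1)) ((n : ℤ) + b n) : ℤ)) →
        (∀ n : ℕ, 1 ≤ n → n ≤ F id N → (aseq id N n : ℤ) = a n) ∧ IsLeast {n : ℕ | 1 ≤ n ∧ a n = 0} (F id N)) ∧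
    (∀ (x : ℕ → ℕ) (N : ℕ), 6 ≤ N → IsLeast {n : ℕ | 1 ≤ n ∧ aseq x N n = 0} (F x N)) ∧
    (∀ M : ℕ → ℕ, (∀ c, Full c (M c)) →
      (∃ (Ω : Type) (_ : MeasurableSpace Ω) (P : Measure Ω) (X : ℕ → Ω → ℕ), Model M P X) ∧
      ∀ (Ω : Type) [MeasurableSpace Ω] (P : Measure Ω) (X : ℕ → Ω → ℕ), Model M P X → ∀ᵐ ω ∂P,
        (∃ N₀ : ℕ, ∀ N : ℕ, N₀ ≤ N →
          PrimeIn (F (fun c => X c ω) N + 1) (X (F (fun c => X c ω) N + 1) ω) ∧
          PrimeIn (F (fun c => X c ω) N + 3) (X (F (fun c => X c ω) N + 1) ω + 2) ∧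
          PrimeIn (F (fun c => X c ω) N + 7) (X (F (fun c => X c ω) N + 1) ω + 6) ∧
          (N : ℝ) - F (fun c => X c ω) N ≤ √(N : ℝ) * Real.log N ^ 11) ∧
        ∀ t : ℝ, 0 < t → t ≤ 1 → Tendsto (fun x : ℕ =>
          (open Classical in (((range x).filter (fun N : ℕ =>
            (N : ℝ) - F (fun c => X c ω) N ≤ (N : ℝ) ^ (t / 2))).card : ℝ)) / x) atTop (𝓝 (t ^ 3))) :=
  Pool.Agent.H705.TR.main

end Pool.Agent.Results.MP_3f8e47_nt.RandomModel
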