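import Mathlib
import Pool.Agent.H76.TB.D6

/-!
# Primes with almost prime companions in short arcs

The primes `p` for which the values at `p` of `k` given linear forms have no small prime factor are equidistributed, with respect
to `α p` modulo one, in all arcs of length at least a power of `1 / log N`; in particular there are prime triples
`(p, p + 2, p + 6)`, up to the replacement of primes by almost primes at `p + 2` and `p + 6`, with `α p + γ` very close to an integer.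
-/

set_option autoImplicit false

open Finset

namespace Pool.Agent.Results.MP_3f8e47_nt.TriplesInShortArcs

/-- `α` is not close to a fraction with a small denominator: `|q α - c| > (log N)^B / N` for all integers `c` and
`1 ≤ q ≤ (log N)^B` -/
def Minor (B N : ℕ) (α : ℝ) : Prop :=
  ∀ q : ℕ, 1 ≤ q → (q : ℝ) ≤ Real.log N ^ B → ∀ c : ℤ, Real.log N ^ B / N < |q * α - c|

/-- the primes `p ≤ N` for which no value `a j * p + b j` has a prime factor `q ≤ y` -/
def RoughPrimes {k : ℕ} (N y : ℕ) (a b : Fin k → ℤ) : Finset ℕ :=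
  (Icc 1 N).filter (fun p => p.Prime ∧ ∀ q ∈ (range (y + 1)).filter Nat.Prime, ∀ j, ¬ (q : ℤ) ∣ a j * p + b j)

/-- the number of the classes `x` modulo `p` with `p ∣ x` or `p ∣ a j * x + b j` for some `j` -/
def forbidden {k : ℕ} (a b : Fin k → ℤ) (p : ℕ) : ℕ :=
  ((range p).filter (fun x : ℕ => (p : ℤ) ∣ (x : ℤ) ∨ ∃ j, (p : ℤ) ∣ a j * x + b j)).card

/-- the expected value -/
noncomputable def expected {k : ℕ} (N y : ℕ) (a b : Fin k → ℤ) : ℝ :=
  N * ∏ p ∈ (range (y + 1)).filter Nat.Prime, ((1 - 1 / (p : ℝ))⁻¹ * (1 - (forbidden a b p : ℝ) / p))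

/-- `v` is not zero and has at most `r` prime factors (with multiplicity), all larger than `w` -/
def AlmostPrime (r : ℕ) (w : ℝ) (v : ℤ) : Prop :=
  v ≠ 0 ∧ v.natAbs.primeFactorsList.length ≤ r ∧ ∀ q ∈ v.natAbs.primeFactorsList, w < q

lemma mem_pz' (y : ℕ) : Pool.Agent.H373R2.T7.pz y = (range (y + 1)).filter Nat.Prime := by
  ext p
  rw [Pool.Agent.H373R2.T7.mem_pz, mem_filter, mem_range]
  constructor
  · rintro ⟨h1, h2⟩; exact ⟨by omega, h2⟩
  · rintro ⟨h1, h2⟩; exact ⟨by omega, h2⟩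

lemma forbidden_eq {k : ℕ} (a b : Fin k → ℤ) (p : ℕ) (hp : p.Prime) : forbidden a b p = Pool.Agent.H76.TB.nb1 a b p := by
  unfold forbidden Pool.Agent.H76.TB.nb1
  congr 1
  apply filter_congr
  intro x _
  unfold Pool.Agent.H76.TB.bd1 Pool.Agent.H76.TB.Fv
  rw [Prime.dvd_finsetProd_iff (Nat.prime_iff_prime_int.1 hp)]
  constructor
  · rintro (h | ⟨j, h⟩)
    · exact Or.inl h
    · exact Or.inr ⟨j, mem_univ _, h⟩
  · rintro (h | ⟨j, _, h⟩)
    · exact Or.inl h
    · exact Or.inr ⟨j, h⟩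

lemma expected_eq {k : ℕ} (N y : ℕ) (a b : Fin k → ℤ) : expected N y a b = Pool.Agent.H76.TB.MT1 N y a b := by
  unfold expected Pool.Agent.H76.TB.MT1 Pool.Agent.H76.TB.sg1
  rw [mem_pz']
  congr 1
  apply prod_congr rfl; intro p hp
  rw [forbidden_eq a b p (mem_filter.1 hp).2]

lemma sum_eq {k : ℕ} (N y : ℕ) (a b : Fin k → ℤ) (α γ c : ℝ) :
    ∑ p ∈ (RoughPrimes N y a b).filter (fun p : ℕ => Int.fract (α * p + γ) < c), Real.log p =
      Pool.Agent.H76.TB.SU1 Pool.Agent.H76.VG.lp N y a b (Pool.Agent.H76.TB.chi α γ c) := by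
  classical
  unfold RoughPrimes Pool.Agent.H76.TB.SU1
  rw [filter_filter, sum_filter]
  apply sum_congr rfl
  intro n _
  unfold Pool.Agent.H76.VG.lp Pool.Agent.H76.TB.RI Pool.Agent.H76.TB.chi
  have hiff : (∀ q ∈ (range (y + 1)).filter Nat.Prime, ∀ j, ¬ (q : ℤ) ∣ a j * n + b j) ↔
      (∀ q ∈ Pool.Agent.H373R2.T7.pz y, ¬ (q : ℤ) ∣ Pool.Agent.H76.TB.Fv a b (n : ℤ)) := by
    rw [mem_pz']
    apply forall_congr'; intro q
    apply forall_congr'; intro hq
    unfold Pool.Agent.H76.TB.Fv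
    rw [Prime.dvd_finsetProd_iff (Nat.prime_iff_prime_int.1 (mem_filter.1 hq).2)]
    constructor
    · rintro h ⟨j, _, hj⟩
      exact h j hj
    · intro h j hj
      exact h ⟨j, mem_univ _, hj⟩
  by_cases h1 : n.Prime
  · by_cases h2 : ∀ q ∈ (range (y + 1)).filter Nat.Prime, ∀ j, ¬ (q : ℤ) ∣ a j * n + b j
    · by_cases h3 : Int.fract (α * n + γ) < c
      · rw [if_pos ⟨⟨h1, h2⟩, h3⟩, if_pos h1, if_pos (hiff.1 h2), if_pos h3]; ring
      · rw [if_neg (fun h => h3 h.2), if_neg h3]; ring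
    · rw [if_neg (fun h => h2 h.1.2), if_neg (fun h => h2 (hiff.2 h))]; ring
  · rw [if_neg (fun h => h1 h.1.1), if_neg h1]; ring

lemma triple_ok (p : ℕ) (hp : p.Prime) : Pool.Agent.H76.TB.nb1 (fun _ : Fin 2 => (1 : ℤ)) ![2, 6] p < p := by
  by_cases h5 : 5 ≤ p
  · have h := Pool.Agent.H76.TB.BD_le (fun _ : Fin 3 => (fun _ : Fin 2 => (1 : ℤ))) (fun _ => ![2, 6]) p hp 0 (fun j hj => by
      have h3 : (p : ℤ) ∣ 1 := hj.1
      exact hp.one_lt.ne' (Nat.dvd_one.1 (by exact_mod_cast h3)))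
    have h' : Pool.Agent.H76.TB.nb1 (fun _ : Fin 2 => (1 : ℤ)) ![2, 6] p ≤ 2 + 1 := h
    omega
  · push Not at h5
    interval_cases p
    · exact absurd hp (by norm_num)
    · exact absurd hp (by norm_num)
    · decide +kernel
    · decide +kernel
    · exact absurd hp (by norm_num)

/-- **Primes with almost prime companions in short arcs.**
(1) For every `k` there is `s₀` such that for every `A` there are `B, N0` with: let `N ≥ N0`, `s ≥ s₀`,
`(log N)^B ≤ y ≤ N^(1/(256 s))`, let `a j, b j` (`j < k`) be integers with `b j ≠ 0` and `|∏ b j| ≤ log N` such that no prime is an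
obstruction, and let `α` be a real number which is not close to a fraction with a small denominator. Then in every arc of length
`c ≥ (log N)^(-A)` modulo one, the number (with the weight `log p`) of the primes `p ≤ N` with `α p` in this arc for which no
`a j * p + b j` has a prime factor `≤ y` is `c` times the expected number, up to a factor `1 + O(16/2^s + (log N)^(-A))`; and the
expected number is at least `N/(log N)^(2k+3)`.
(2) There are `r` and `δ > 0` such that for all irrational `α`, all real `γ` and all `A`, for infinitely many `N`, and for all large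
`N` if `α` is algebraic, at least `N/(log N)^(A+9)` primes `p ≤ N` have `{α p + γ} < (log N)^(-A)` and `p + 2` and `p + 6` almost
prime: at most `r` prime factors, all larger than `N^δ`. -/
theorem result :
    (∀ k : ℕ, ∃ s₀ : ℕ, ∀ A : ℕ, ∃ B N0 : ℕ, ∀ N : ℕ, N0 ≤ N → ∀ s y : ℕ, s₀ ≤ s → y ^ (256 * s) ≤ N → Real.log N ^ B ≤ y →
      ∀ (a b : Fin k → ℤ), (∀ j, b j ≠ 0) → ((∏ j, b j).natAbs : ℝ) ≤ Real.log N → (∀ p : ℕ, p.Prime → forbidden a b p < p) →
      ∀ α : ℝ, Minor B N α → ∀ γ c : ℝ, 1 / Real.log N ^ A ≤ c → c ≤ 1 →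
      |∑ p ∈ (RoughPrimes N y a b).filter (fun p : ℕ => Int.fract (α * p + γ) < c), Real.log p - c * expected N y a b| ≤
        (16 / 2 ^ s + 1 / Real.log N ^ A) * (c * expected N y a b) ∧
      N / Real.log N ^ (2 * k + 3) ≤ expected N y a b) ∧
    (∃ (r : ℕ) (δ : ℝ), 0 < δ ∧ ∀ (A : ℕ) (α γ : ℝ), Irrational α →
      (∀ M : ℕ, ∃ N : ℕ, M ≤ N ∧ ∃ R : Finset ℕ, (N : ℝ) / Real.log N ^ (A + 9) ≤ R.card ∧
        ∀ p ∈ R, p ≤ N ∧ p.Prime ∧ AlmostPrime r ((N : ℝ) ^ δ) (p + 2) ∧ AlmostPrime r ((N : ℝ) ^ δ) (p + 6) ∧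
          Int.fract (α * p + γ) < 1 / Real.log N ^ A) ∧
      (IsAlgebraic ℤ α → ∃ N0 : ℕ, ∀ N : ℕ, N0 ≤ N → ∃ R : Finset ℕ, (N : ℝ) / Real.log N ^ (A + 9) ≤ R.card ∧
        ∀ p ∈ R, p ≤ N ∧ p.Prime ∧ AlmostPrime r ((N : ℝ) ^ δ) (p + 2) ∧ AlmostPrime r ((N : ℝ) ^ δ) (p + 6) ∧
          Int.fract (α * p + γ) < 1 / Real.log N ^ A)) := by
  constructor
  · intro k
    obtain ⟨s₀, h⟩ := Pool.Agent.H76.TB.main_arc k
    refine ⟨s₀, fun A => ?_⟩
    obtain ⟨B, N0, h1⟩ := h A
    refine ⟨B, N0, fun N hN s y hs hys hy a b hb hbN hun α hα γ c hc hc1 => ?_⟩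
    rw [sum_eq, expected_eq]
    exact h1 N hN s y hs hys hy a b hb hbN (fun p hp => by
      have := hun p hp
      rwa [forbidden_eq a b p hp] at this) α hα γ c hc hc1
  · obtain ⟨r, δ, hδ, h⟩ := Pool.Agent.H76.TB.arc_count 2
    refine ⟨r, δ, hδ, fun A α γ hα => ?_⟩
    obtain ⟨B, N0, h1⟩ := h A
    obtain ⟨m2, h2⟩ := Pool.Agent.H373R2.T7.ev_L' 12
    have key : ∀ N : ℕ, max N0 (max m2 1) ≤ N → Minor B N α → ∃ R : Finset ℕ, (N : ℝ) / Real.log N ^ (A + 9) ≤ R.card ∧
        ∀ p ∈ R, p ≤ N ∧ p.Prime ∧ AlmostPrime r ((N : ℝ) ^ δ) (p + 2) ∧ AlmostPrime r ((N : ℝ) ^ δ) (p + 6) ∧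
          Int.fract (α * p + γ) < 1 / Real.log N ^ A := by
      intro N hN hmin
      have hL := h2 N (le_trans (le_trans (le_max_left _ _) (le_max_right _ _)) hN)
      have hN1 : 1 ≤ N := le_trans (le_trans (le_max_right _ _) (le_max_right _ _)) hN
      obtain ⟨R, g1, g2⟩ := h1 N (le_trans (le_max_left _ _) hN) (fun _ => 1) ![2, 6] (by
          intro j; fin_cases j <;> norm_num) (by
          rw [Fin.prod_univ_two]
          simp
          norm_num at hL ⊢
          linarith) (fun j => by simpa using hN1) triple_ok α hmin γ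
      refine ⟨R, g2, fun p hp => ?_⟩
      obtain ⟨c1, c2, c3, c4⟩ := g1 p hp
      have d0 := c4 0
      have d1 := c4 1
      simp only [one_mul, Matrix.cons_val_zero, Matrix.cons_val_one] at d0 d1
      exact ⟨c1, c2, d0, d1, c3⟩
    refine ⟨fun M => ?_, fun hal => ?_⟩
    · obtain ⟨N, hN, hmin⟩ := Pool.Agent.H76.TB.minor_irr α hα B (max M (max N0 (max m2 1)))
      exact ⟨N, (le_max_left _ _).trans hN, key N ((le_max_right _ _).trans hN) hmin⟩
    · obtain ⟨N1, hN1⟩ := Pool.Agent.H76.TB.minor_alg α hα hal B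
      exact ⟨max N1 (max N0 (max m2 1)), fun N hN => key N ((le_max_right _ _).trans hN) (hN1 N ((le_max_left _ _).trans hN))⟩

end Pool.Agent.Results.MP_3f8e47_nt.TriplesInShortArcs
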